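import Pool.Agent.H67.LW.Spec

/-!
# LW: the part RD (the counting lemma)
-/

set_option autoImplicit false

namespace LW

open Finset

namespace RdAux

theorem nat_card_sub {R : Type} [Fintype R] (p : R → Prop) [DecidablePred p] :
    Nat.card {r // p r} = (univ.filter p).card := by
  rw [Nat.card_eq_fintype_card, Fintype.card_subtype]

theorem sum_w (q : Bool × Bool → Prop) [DecidablePred q] :
    ∑ c : Bool × Bool, (if q c then (1 / 2 : ℝ) else 1) ≤ 4 ∧
      (∀ c, q c → ∑ c : Bool × Bool, (if q c then (1 / 2 : ℝ) else 1) ≤ 7 / 2) := by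
  constructor
  · calc ∑ c : Bool × Bool, (if q c then (1 / 2 : ℝ) else 1) ≤ ∑ _c : Bool × Bool, (1 : ℝ) := by
          refine sum_le_sum fun c _ => ?_
          split_ifs <;> norm_num
      _ = 4 := by simp
  · intro c₀ hc₀
    calc ∑ c : Bool × Bool, (if q c then (1 / 2 : ℝ) else 1)
        ≤ ∑ c : Bool × Bool, (1 - if c = c₀ then (1 / 2 : ℝ) else 0) := by
          refine sum_le_sum fun c _ => ?_
          by_cases h : c = c₀
          · subst h
            rw [if_pos hc₀, if_pos rfl]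
            norm_num
          · rw [if_neg h]
            split_ifs <;> norm_num
      _ = 7 / 2 := by
          rw [sum_sub_distrib, sum_ite_eq' univ c₀ (fun _ => (1 / 2 : ℝ)), if_pos (mem_univ _)]
          simp
          norm_num

/-- The sum over all choices for one set `T`. -/
theorem sum_choices {R : Type} [Fintype R] [DecidableEq R] (q : R → Bool × Bool → Prop)
    [∀ r, DecidablePred (q r)] (good : R → Prop) [DecidablePred good]
    (hgood : ∀ r, good r → ∃ c, q r c) :
    ∑ σ : R → Bool × Bool, (1 / 2 : ℝ) ^ (univ.filter fun r => q r (σ r)).card ≤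
      4 ^ Fintype.card R * (7 / 8 : ℝ) ^ (univ.filter good).card := by
  have h1 : ∀ σ : R → Bool × Bool, (1 / 2 : ℝ) ^ (univ.filter fun r => q r (σ r)).card =
      ∏ r, (if q r (σ r) then (1 / 2 : ℝ) else 1) := by
    intro σ
    rw [prod_ite, prod_const, prod_const, one_pow, mul_one]
  rw [sum_congr rfl fun σ _ => h1 σ]
  have h2 := prod_univ_sum (fun _ : R => (univ : Finset (Bool × Bool)))
    (fun r c => if q r c then (1 / 2 : ℝ) else 1)
  rw [Fintype.piFinset_univ] at h2
  rw [← h2]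
  calc ∏ r, ∑ c : Bool × Bool, (if q r c then (1 / 2 : ℝ) else 1)
      ≤ ∏ r, (4 * if good r then (7 / 8 : ℝ) else 1) := by
        refine prod_le_prod (fun r _ => sum_nonneg fun c _ => ?_) fun r _ => ?_
        · split_ifs <;> norm_num
        · obtain ⟨h3, h4⟩ := sum_w (q r)
          by_cases hr : good r
          · rw [if_pos hr]
            obtain ⟨c, hc⟩ := hgood r hr
            have := h4 c hc
            linarith
          · rw [if_neg hr]
            linarith
    _ = 4 ^ Fintype.card R * (7 / 8 : ℝ) ^ (univ.filter good).card := by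
        rw [prod_mul_distrib, prod_const, card_univ, prod_ite, prod_const, prod_const, one_pow, mul_one]

end RdAux

open RdAux

theorem rd_thm : S_RD := by
  intro A H R _ _ _ _ _ _ k κ κ₁ a b P hA hnum
  classical
  by_contra hcon
  push Not at hcon
  -- types
  let q : Finset (A × Bool) → R → Bool × Bool → Prop := fun T r c => (a r, c.1) ∉ T ∧ (b r, c.2) ∉ T
  let good : Finset (A × Bool) → R → Prop := fun T r => (∃ i, (a r, i) ∉ T) ∧ ∃ j, (b r, j) ∉ T
  let TT : Finset (Finset (A × Bool)) := univ.filter fun T => κ₁ ≤ (univ.filter (good T)).card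
  have hbad : ∀ σ : R → Bool × Bool, ∃ T ∈ TT, (univ.filter fun r => q T r (σ r)).card < κ := by
    intro σ
    obtain ⟨D, hD1, hD2⟩ := hcon σ
    let T : Finset (A × Bool) := univ.filter fun p => D ∈ P p.1 p.2
    have hT : ∀ v i, (v, i) ∉ T ↔ D ∉ P v i := by
      intro v i
      simp only [T, mem_filter, mem_univ, true_and]
    refine ⟨T, ?_, ?_⟩
    · simp only [TT, mem_filter, mem_univ, true_and]
      rw [nat_card_sub] at hD1
      refine hD1.trans (card_le_card fun r hr => ?_)
      simp only [mem_filter, mem_univ, true_and, good] at hr ⊢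
      obtain ⟨⟨i, hi⟩, j, hj⟩ := hr
      exact ⟨⟨i, (hT _ _).2 hi⟩, j, (hT _ _).2 hj⟩
    · rw [nat_card_sub] at hD2
      refine lt_of_le_of_lt (card_le_card fun r hr => ?_) hD2
      simp only [mem_filter, mem_univ, true_and, q] at hr ⊢
      exact ⟨(hT _ _).1 hr.1, (hT _ _).1 hr.2⟩
  set N := Fintype.card R with hN
  have h1 : (4 : ℝ) ^ N ≤ ∑ σ : R → Bool × Bool, ∑ T ∈ TT,
      (2 : ℝ) ^ κ * (1 / 2 : ℝ) ^ (univ.filter fun r => q T r (σ r)).card := by
    have h2 : (4 : ℝ) ^ N = ∑ _σ : R → Bool × Bool, (1 : ℝ) := by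
      rw [sum_const, card_univ, nsmul_eq_mul, mul_one, Fintype.card_fun, Fintype.card_prod,
        Fintype.card_bool]
      push_cast
      norm_num [hN]
    rw [h2]
    refine sum_le_sum fun σ _ => ?_
    obtain ⟨T, hT, hlt⟩ := hbad σ
    have h3 : (1 : ℝ) ≤ (2 : ℝ) ^ κ * (1 / 2 : ℝ) ^ (univ.filter fun r => q T r (σ r)).card := by
      obtain ⟨m, hm⟩ := Nat.exists_eq_add_of_lt hlt
      rw [hm, one_div_pow]
      have h4 : (2 : ℝ) ^ ((univ.filter fun r => q T r (σ r)).card + m + 1) =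
          2 ^ (univ.filter fun r => q T r (σ r)).card * 2 ^ (m + 1) := by
        rw [← pow_add, add_assoc]
      rw [h4]
      have h5 : (1 : ℝ) ≤ 2 ^ (m + 1) := one_le_pow₀ (by norm_num)
      have h6 : (0 : ℝ) < 2 ^ (univ.filter fun r => q T r (σ r)).card := by positivity
      field_simp
      linarith
    refine h3.trans (single_le_sum (f := fun T => (2 : ℝ) ^ κ *
      (1 / 2 : ℝ) ^ (univ.filter fun r => q T r (σ r)).card) (fun T' _ => by positivity) hT)
  rw [sum_comm] at h1
  have h2 : ∀ T ∈ TT, ∑ σ : R → Bool × Bool,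
      (2 : ℝ) ^ κ * (1 / 2 : ℝ) ^ (univ.filter fun r => q T r (σ r)).card ≤
      2 ^ κ * (4 ^ N * (7 / 8 : ℝ) ^ κ₁) := by
    intro T hT
    rw [← mul_sum]
    refine mul_le_mul_of_nonneg_left ?_ (by positivity)
    refine (sum_choices (q T) (good T) (fun r hr => ?_)).trans ?_
    · obtain ⟨⟨i, hi⟩, j, hj⟩ := hr
      exact ⟨(i, j), hi, hj⟩
    · refine mul_le_mul_of_nonneg_left ?_ (by positivity)
      exact pow_le_pow_of_le_one (by norm_num) (by norm_num) (mem_filter.1 hT).2
  have h3 := h1.trans (sum_le_card_nsmul TT _ _ h2)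
  rw [nsmul_eq_mul] at h3
  have h4 : (TT.card : ℝ) ≤ 4 ^ (k + 1) := by
    have h5 : TT.card ≤ 4 ^ (k + 1) := by
      calc TT.card ≤ (univ : Finset (Finset (A × Bool))).card := card_le_card (subset_univ _)
        _ = 2 ^ (Fintype.card A * 2) := by
            rw [card_univ, Fintype.card_finset, Fintype.card_prod, Fintype.card_bool]
        _ ≤ 2 ^ ((k + 1) * 2) := Nat.pow_le_pow_right (by norm_num) (by omega)
        _ = 4 ^ (k + 1) := by rw [mul_comm, pow_mul]; norm_num
    exact_mod_cast h5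
  have h5 : (4 : ℝ) ^ N ≤ 4 ^ (k + 1) * (2 ^ κ * (4 ^ N * (7 / 8 : ℝ) ^ κ₁)) :=
    h3.trans (mul_le_mul_of_nonneg_right h4 (by positivity))
  have h6 : (0 : ℝ) < 4 ^ N := by positivity
  have h7 : (1 : ℝ) ≤ 4 ^ (k + 1) * 2 ^ κ * (7 / 8 : ℝ) ^ κ₁ := by
    by_contra hlt
    rw [not_le] at hlt
    have := mul_lt_mul_of_pos_left hlt h6
    nlinarith
  rw [div_pow, ← mul_div_assoc, le_div_iff₀ (by positivity), one_mul] at h7
  have h8 : (8 : ℝ) ^ κ₁ ≤ ((4 ^ (k + 1) * 2 ^ κ * 7 ^ κ₁ : ℕ) : ℝ) := by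
    push_cast
    exact h7
  have h9 : 8 ^ κ₁ ≤ 4 ^ (k + 1) * 2 ^ κ * 7 ^ κ₁ := by exact_mod_cast h8
  omega

end LW
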