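import Pool.Agent.H67.LW.Spec
import Pool.Agent.H67.LW.Base

/-!
# LW: the part ROUTE
-/

set_option autoImplicit false

namespace LW

open Finset
open Pool.Agent.Helper36.BN (inc cyc bdry)

namespace RouteAux

theorem card_sub_le {R : Type} [Finite R] {p q : R → Prop} (h : ∀ r, p r → q r) :
    Nat.card {r // p r} ≤ Nat.card {r // q r} :=
  Nat.card_le_card_of_injective (fun x : {r // p r} => (⟨x.1, h _ x.2⟩ : {r // q r}))
    (fun x y hxy => Subtype.ext (Subtype.mk.inj hxy))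

theorem card_compl {R : Type} [Fintype R] (p : R → Prop) :
    Nat.card {r // p r} + Nat.card {r // ¬ p r} = Fintype.card R := by
  classical
  rw [Nat.card_eq_fintype_card, Nat.card_eq_fintype_card, Fintype.card_subtype, Fintype.card_subtype,
    card_filter_add_card_filter_not, card_univ]

theorem ts_ne_tt {V : Type} [Fintype V] [DecidableEq V] (G : SimpleGraph V)
    (X : Finset V → Finset V) (P : Finset (Finset V)) (e : TE G X P) : ts G X P e ≠ tt G X P e := by
  rcases e with e | p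
  · intro h
    exact (adj_gs_gt e.1).ne (Sum.inl.inj h)
  · intro h
    cases h

theorem num (k : ℕ) : 4 ^ (k + 1) * 2 ^ (7 * (k + 1)) * 7 ^ (48 * (k + 1)) < 8 ^ (48 * (k + 1)) := by
  rw [pow_mul, pow_mul, pow_mul, ← mul_pow, ← mul_pow]
  exact Nat.pow_lt_pow_left (by norm_num) (by omega)

end RouteAux

open RouteAux

theorem route_thm (hOR0 : S_OR0) (hOR : S_OR) (hCN : S_CN) (hTP : S_TP) (hRD : S_RD)
    (hPV : S_PV) (hPH : S_PH) : S_ROUTE := by
  intro V _ _ G k Valid X C R _ a b hdec hC hab hR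
  classical
  rcases Nat.lt_or_ge (144 * (k + 1)) (Fintype.card R) with hbig | hsmall
  swap
  · -- few requests
    obtain ⟨hP, hord⟩ := hOR0 V G k Valid X C hdec hC
    refine ⟨{C}, hP, hord, ?_⟩
    have hcn := (hCN V G k Valid X C {C} hdec hC hP).1
    have hex : ∀ r, ∃ x : TE G X {C} → ZMod 2,
        PathVec (ts G X {C}) (tt G X {C}) (Sum.inl (a r)) (Sum.inl (b r)) x := by
      intro r
      obtain ⟨x, hx, -⟩ := hPV (V ⊕ Finset V) (TE G X {C}) (ts G X {C}) (tt G X {C}) univ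
        (Sum.inl (a r)) (Sum.inl (b r)) (ts_ne_tt G X {C})
        (fun h => (hab r).2.2 (Sum.inl.inj h)) (hcn (a r) (hab r).1 (b r) (hab r).2.1)
      exact ⟨x, hx⟩
    choose x hx using hex
    refine ⟨x, hx, fun D _ => ?_⟩
    refine le_trans ?_ hsmall
    rw [← Nat.card_eq_fintype_card]
    exact Nat.card_le_card_of_injective (fun y : {r // Pass (x r) D} => y.1) Subtype.val_injective
  -- many requests
  have hRpos : 0 < Fintype.card R := by omega
  obtain ⟨r₀⟩ := Fintype.card_pos_iff.1 hRpos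
  set h : V := a r₀ with hh
  have hhn : h ∈ nbr G C := (hab r₀).1
  obtain ⟨P, hP, hno3, hhang⟩ := hPH V G k Valid X C h R a b (48 * (k + 1)) hdec hC hhn hab
    (by omega) (by omega)
  refine ⟨P, hP, hOR V G k Valid X C P h hdec hC hhn hP hno3, ?_⟩
  obtain ⟨hcn1, hcn2⟩ := hCN V G k Valid X C P hdec hC hP
  set M := mg (ts G X P) (tt G X P) with hM
  -- the two routes of every vertex
  have htp : ∀ v : {v // v ∈ nbr G C}, ∃ S : Bool → Finset (V ⊕ Finset V),
      (∀ i, Lk M (S i) (Sum.inl v.1) (Sum.inl h)) ∧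
      ∀ D ∈ Hang G X P, Sum.inr D ∈ S true → Sum.inr D ∈ S false →
        ¬ Lk M (univ \ {Sum.inr D}) (Sum.inl v.1) (Sum.inl h) := by
    intro v
    obtain ⟨Pv, Qv, h1, h2, h3⟩ := hTP (V ⊕ Finset V) M ((Hang G X P).image Sum.inr)
      (Sum.inl v.1) (Sum.inl h) (by simp) (by simp) (hcn1 v.1 v.2 h hhn)
    refine ⟨fun i => if i then Pv else Qv, ?_, ?_⟩
    · intro i
      cases i
      · simpa using h2
      · simpa using h1
    · intro D hD hD1 hD2
      exact h3 (Sum.inr D) (mem_image_of_mem _ hD) (by simpa using hD1) (by simpa using hD2)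
  choose S hS1 hS2 using htp
  -- the random choice
  let a' : R → {v // v ∈ nbr G C} := fun r => ⟨a r, (hab r).1⟩
  let b' : R → {v // v ∈ nbr G C} := fun r => ⟨b r, (hab r).2.1⟩
  let PP : {v // v ∈ nbr G C} → Bool → Finset {D // D ∈ Hang G X P} := fun v i =>
    univ.filter fun D => Sum.inr D.1 ∈ S v i
  have hcardA : Fintype.card {v // v ∈ nbr G C} ≤ k + 1 := by
    rw [Fintype.card_coe]
    exact (card_le_card (hdec.sub C hC)).trans (hdec.card C hC)
  obtain ⟨σ, hσ⟩ := hRD {v // v ∈ nbr G C} {D // D ∈ Hang G X P} R k (7 * (k + 1)) (48 * (k + 1))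
    a' b' PP hcardA (num k)
  -- separated sets
  have hsep : ∀ (D : {D // D ∈ Hang G X P}) (v : {v // v ∈ nbr G C}), v.1 ∉ Vh G C h D.1 →
      ∃ i, D ∉ PP v i := by
    intro D v hv
    rw [mem_Vh] at hv
    push Not at hv
    have h1 : Lk (gr G C) (univ \ D.1) h v.1 := hv (mem_union_right _ v.2)
    have h2 := hcn2 D.1 D.2 v.1 v.2 h hhn h1.symm
    by_contra hcon
    push Not at hcon
    exact hS2 v D.1 D.2 ((mem_filter.1 (hcon true)).2) ((mem_filter.1 (hcon false)).2) h2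
  -- the paths
  have hex : ∀ r, ∃ x : TE G X P → ZMod 2,
      PathVec (ts G X P) (tt G X P) (Sum.inl (a r)) (Sum.inl (b r)) x ∧
      ∀ e, x e ≠ 0 → ts G X P e ∈ S (a' r) (σ r).1 ∪ S (b' r) (σ r).2 := by
    intro r
    have h1 : Lk M (S (a' r) (σ r).1 ∪ S (b' r) (σ r).2) (Sum.inl (a r)) (Sum.inl h) :=
      (hS1 (a' r) (σ r).1).mono subset_union_left
    have h2 : Lk M (S (a' r) (σ r).1 ∪ S (b' r) (σ r).2) (Sum.inl (b r)) (Sum.inl h) :=
      (hS1 (b' r) (σ r).2).mono subset_union_right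
    obtain ⟨x, hx, hx2⟩ := hPV (V ⊕ Finset V) (TE G X P) (ts G X P) (tt G X P) _
        (Sum.inl (a r)) (Sum.inl (b r)) (ts_ne_tt G X P)
        (fun h => (hab r).2.2 (Sum.inl.inj h)) (h1.trans h2.symm)
    exact ⟨x, hx, fun e he => (hx2 e he).1⟩
  choose x hx hx2 using hex
  refine ⟨x, hx, fun D hD => ?_⟩
  have h1 := hσ ⟨D, hD⟩ ((hhang D hD).trans (card_sub_le fun r hr =>
    ⟨hsep ⟨D, hD⟩ (a' r) hr.1, hsep ⟨D, hD⟩ (b' r) hr.2⟩))
  have h2 : Nat.card {r // Pass (x r) D} ≤ Nat.card {r // ¬ ((⟨D, hD⟩ : {D // D ∈ Hang G X P}) ∉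
      PP (a' r) (σ r).1 ∧ (⟨D, hD⟩ : {D // D ∈ Hang G X P}) ∉ PP (b' r) (σ r).2)} := by
    refine card_sub_le fun r hr hcon => ?_
    obtain ⟨e, he1, he2⟩ := hr
    have h3 := hx2 r e he1
    rw [he2, mem_union] at h3
    rcases h3 with h3 | h3
    · exact hcon.1 (mem_filter.2 ⟨mem_univ _, h3⟩)
    · exact hcon.2 (mem_filter.2 ⟨mem_univ _, h3⟩)
  have h3 := card_compl fun r : R => (⟨D, hD⟩ : {D // D ∈ Hang G X P}) ∉
      PP (a' r) (σ r).1 ∧ (⟨D, hD⟩ : {D // D ∈ Hang G X P}) ∉ PP (b' r) (σ r).2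
  omega

end LW
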